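import Pool.Agent.N162.HN.Stm

/-!
# Project HN, part GX: good coordinates for a curve

(helper717, for helper162)
-/

set_option autoImplicit false

open FF Pool.Agent.W603.LV IntermediateField Pool.Agent.N162.HN

namespace Pool.Agent.N717.HN

section

variable {n : ℕ} {Ω E : Type} [Field Ω] [Field E] [Algebra Ω E]

/-- the new coordinate -/
noncomputable def yy (s : ℕ) (X : Fin (n + 2) → E) : E :=
  ∑ k : Fin (n + 1), (s : E) ^ (k : ℕ) * X k.succ

lemma nge {v : Place Ω E} {f : E} : ¬ Ge v 0 f ↔ v.ord f < 0 := by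
  constructor
  · intro h
    by_contra hc
    exact h (Or.inr (not_lt.mp hc))
  · rintro h (h0 | h0)
    · rw [h0, v.ord_zero] at h
      exact lt_irrefl _ h
    · omega

lemma ord_of_near {v : Place Ω E} {f : E} {c : Ω} (hc : c ≠ 0)
    (h : Ge v 1 (f - algebraMap Ω E c)) : f ≠ 0 ∧ v.ord f = 0 := by
  have hc0 : algebraMap Ω E c ≠ 0 := by simpa using hc
  have hco := v.ord_const hc
  rcases h with h | h
  · have h1 : f = algebraMap Ω E c := sub_eq_zero.mp h
    rw [h1]
    exact ⟨hc0, hco⟩
  · have hg : f - algebraMap Ω E c ≠ 0 := by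
      intro h0
      rw [h0, v.ord_zero] at h
      omega
    have h2 := v.ord_add_eq hc0 hg (by omega)
    rw [add_sub_cancel] at h2
    exact ⟨h2.1, by omega⟩

/-- the order of the new coordinate at a pole -/
lemma local_poly [IsAlgClosed Ω] [CharZero Ω] [IsFF Ω E] (X : Fin (n + 2) → E) (hX : X 0 = 1)
    (v : Place Ω E) (hv : ∃ i, v.ord (X i) < 0) :
    ∃ (p : Polynomial Ω) (j : Fin (n + 2)), p ≠ 0 ∧ v.ord (X j) < 0 ∧
      (∀ i, v.ord (X j) ≤ v.ord (X i)) ∧
      ∀ s : ℕ, p.eval (s : Ω) ≠ 0 → v.ord (yy s X) = v.ord (X j) := by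
  obtain ⟨j, -, hj⟩ := Finset.exists_min_image Finset.univ (fun i => v.ord (X i))
    Finset.univ_nonempty
  obtain ⟨i₀, hi₀⟩ := hv
  have hjneg : v.ord (X j) < 0 := lt_of_le_of_lt (hj i₀ (Finset.mem_univ _)) hi₀
  have hXj : X j ≠ 0 := by
    intro h0
    rw [h0, v.ord_zero] at hjneg
    exact lt_irrefl _ hjneg
  have hj0 : j ≠ 0 := by
    rintro rfl
    rw [hX, v.ord_one] at hjneg
    exact lt_irrefl _ hjneg
  have hreg : ∀ i, Ge v 0 (X i / X j) := by
    intro i
    by_cases hi : X i = 0
    · left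
      rw [hi, zero_div]
    · right
      rw [v.ord_div hi hXj]
      have := hj i (Finset.mem_univ _)
      omega
  choose b hb using fun i => exists_const v (hreg i)
  have hbj : b j ≠ 0 := by
    intro h0
    have h1 := hb j
    rw [h0, map_zero, sub_zero, div_self hXj] at h1
    rcases h1 with h1 | h1
    · exact one_ne_zero h1
    · rw [v.ord_one] at h1
      omega
  refine ⟨∑ k : Fin (n + 1), Polynomial.C (b k.succ) * Polynomial.X ^ (k : ℕ), j, ?_, hjneg,
    fun i => hj i (Finset.mem_univ _), ?_⟩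
  · intro h0
    apply hbj
    have h1 := congrArg (fun q : Polynomial Ω => q.coeff ((j.pred hj0 : Fin (n + 1)) : ℕ)) h0
    simp only [Polynomial.finsetSum_coeff, Polynomial.coeff_C_mul, Polynomial.coeff_X_pow,
      Polynomial.coeff_zero] at h1
    rw [Finset.sum_eq_single (j.pred hj0)] at h1
    · rw [if_pos rfl, mul_one, Fin.succ_pred] at h1
      exact h1
    · intro k _ hk
      rw [if_neg, mul_zero]
      intro h2
      exact hk (Fin.ext h2.symm)
    · intro h2
      exact absurd (Finset.mem_univ _) h2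
  · intro s hs
    set c : Ω := Polynomial.eval (s : Ω)
      (∑ k : Fin (n + 1), Polynomial.C (b k.succ) * Polynomial.X ^ (k : ℕ)) with hc
    have hc' : c = ∑ k : Fin (n + 1), b k.succ * (s : Ω) ^ (k : ℕ) := by
      rw [hc, Polynomial.eval_finsetSum]
      refine Finset.sum_congr rfl fun k _ => ?_
      rw [Polynomial.eval_mul, Polynomial.eval_C, Polynomial.eval_pow, Polynomial.eval_X]
    have h1 : yy s X / X j - algebraMap Ω E c =
        ∑ k : Fin (n + 1), (s : E) ^ (k : ℕ) * (X k.succ / X j - algebraMap Ω E (b k.succ)) := by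
      rw [hc', map_sum, yy, Finset.sum_div, ← Finset.sum_sub_distrib]
      refine Finset.sum_congr rfl fun k _ => ?_
      rw [map_mul, map_pow, map_natCast]
      ring
    have h2 : Ge v 1 (yy s X / X j - algebraMap Ω E c) := by
      rw [h1]
      refine Ge.sum _ _ fun k _ => ?_
      have h3 := ((Ge.natCast (P := v) s).pow (k : ℕ)).mul (hb k.succ)
      simpa using h3
    obtain ⟨h4, h5⟩ := ord_of_near hs h2
    have h6 : yy s X ≠ 0 := by
      intro h0
      rw [h0, zero_div] at h4
      exact h4 rfl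
    rw [v.ord_div h6 hXj] at h5
    omega

lemma exists_bad [IsAlgClosed Ω] [CharZero Ω] [IsFF Ω E] (X : Fin (n + 2) → E) (hX : X 0 = 1) :
    ∃ bad : Finset ℕ, ∀ s : ℕ, s ∉ bad → ∀ v : Place Ω E, (∃ i, v.ord (X i) < 0) →
      v.ord (yy s X) < 0 ∧ (∀ i, v.ord (yy s X) ≤ v.ord (X i)) ∧
        ∃ j, v.ord (yy s X) = v.ord (X j) := by
  classical
  have hfin : {v : Place Ω E | ∃ i, v.ord (X i) < 0}.Finite := by
    refine (Set.finite_iUnion fun i => finite_support (k := Ω) (X i)).subset ?_
    rintro v ⟨i, hi⟩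
    exact Set.mem_iUnion.mpr ⟨i, hi.ne⟩
  have hex : ∀ v : Place Ω E, ∃ p : Polynomial Ω, p ≠ 0 ∧ ((∃ i, v.ord (X i) < 0) →
      ∀ s : ℕ, p.eval (s : Ω) ≠ 0 → v.ord (yy s X) < 0 ∧
        (∀ i, v.ord (yy s X) ≤ v.ord (X i)) ∧ ∃ j, v.ord (yy s X) = v.ord (X j)) := by
    intro v
    by_cases hv : ∃ i, v.ord (X i) < 0
    · obtain ⟨p, j, hp, h1, h2, h3⟩ := local_poly X hX v hv
      refine ⟨p, hp, fun _ s hs => ?_⟩
      rw [h3 s hs]
      exact ⟨h1, h2, j, rfl⟩
    · exact ⟨1, one_ne_zero, fun h => absurd h hv⟩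
  choose p hp0 hp using hex
  have hbad : (⋃ v ∈ {v : Place Ω E | ∃ i, v.ord (X i) < 0},
      {s : ℕ | (p v).IsRoot (s : Ω)}).Finite := by
    refine hfin.biUnion fun v _ => ?_
    exact (Polynomial.finite_setOfPred_isRoot (hp0 v)).preimage (Nat.cast_injective.injOn)
  refine ⟨hbad.toFinset, fun s hs v hv => hp v hv s fun h0 => hs ?_⟩
  rw [Set.Finite.mem_toFinset]
  exact Set.mem_biUnion (show v ∈ {v : Place Ω E | ∃ i, v.ord (X i) < 0} from hv) h0

/-- there is a pole -/
lemma exists_pole [IsAlgClosed Ω] [CharZero Ω] [IsFF Ω E] (X : Fin (n + 2) → E)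
    (hgen : IntermediateField.adjoin Ω (Set.range X) = ⊤) :
    ∃ (v : Place Ω E) (i : Fin (n + 2)), v.ord (X i) < 0 := by
  by_contra hc
  push Not at hc
  have h1 : ∀ i, IsAlgebraic Ω (X i) := by
    intro i
    by_contra hi
    obtain ⟨S, hS, hS2⟩ := poles (k := Ω) (f := X i) hi
    have h2 : S = ∅ := by
      rw [Finset.eq_empty_iff_forall_notMem]
      intro w hw
      exact absurd ((hS w).mp hw) (not_lt.mpr (hc w i))
    rw [h2, Finset.sum_empty] at hS2
    have := IsFF.finite (k := Ω) (f := X i) hi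
    have h3 : 0 < Module.finrank Ω⟮X i⟯ E := Module.finrank_pos
    omega
  obtain ⟨f, hf⟩ := IsFF.exists_transcendental (k := Ω) (K := E)
  apply hf
  have h2 : Algebra.IsAlgebraic Ω (IntermediateField.adjoin Ω (Set.range X)) := by
    refine IntermediateField.isAlgebraic_adjoin ?_
    rintro _ ⟨i, rfl⟩
    exact (h1 i).isIntegral
  have h3 : f ∈ IntermediateField.adjoin Ω (Set.range X) := by
    rw [hgen]
    exact IntermediateField.mem_top
  have h4 := h2.isAlgebraic (⟨f, h3⟩ : IntermediateField.adjoin Ω (Set.range X))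
  exact h4.algebraMap (A := E)

lemma tw_one (s : ℕ) (X : Fin (n + 2) → E) : tw s X 1 = yy s X := by
  unfold tw yy
  rw [Function.update_self]

lemma tw_ne (s : ℕ) (X : Fin (n + 2) → E) {i : Fin (n + 2)} (hi : i ≠ 1) : tw s X i = X i := by
  unfold tw
  rw [Function.update_of_ne hi]

end

/-- **(GX) good coordinates for a curve** -/
theorem gx_ : Pool.Agent.N162.HN.StGX := by
  intro n Ω E _ _ _ _ _ _ X hX hgen
  obtain ⟨bad, hbad⟩ := exists_bad (Ω := Ω) X hX
  refine ⟨bad, fun s hs => ?_⟩
  have H := hbad s hs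
  have h01 : (0 : Fin (n + 2)) ≠ 1 := by
    intro h
    exact absurd (congrArg Fin.val h) (by simp)
  have hyreg : ∀ v : Place Ω E, (∀ i, Ge v 0 (X i)) → Ge v 0 (yy s X) := by
    intro v hv
    refine Ge.sum _ _ fun k _ => ?_
    have h3 := ((Ge.natCast (P := v) s).pow (k : ℕ)).mul (hv k.succ)
    simpa using h3
  have hneg : ∀ v : Place Ω E, v.ord (yy s X) < 0 → ∃ i, v.ord (X i) < 0 := by
    intro v hv
    by_contra hc
    push Not at hc
    exact (nge.mpr hv) (hyreg v fun i => Or.inr (hc i))
  constructor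
  · refine ⟨?_, ?_, ?_, ?_, ?_⟩
    · rw [tw_ne s X h01, hX]
    · rw [tw_one]
      obtain ⟨v, i, hi⟩ := exists_pole (Ω := Ω) X hgen
      exact v.transcendental_of_ord_ne (H v ⟨i, hi⟩).1.ne
    · intro v hv i
      rw [tw_one] at hv
      by_cases hi : i = 1
      · rw [hi, tw_one]
        exact hv
      · rw [tw_ne s X hi]
        by_contra hc
        exact (nge.mpr (H v ⟨i, nge.mp hc⟩).1) hv
    · intro v hv i
      rw [tw_one] at hv ⊢
      have hy0 : yy s X ≠ 0 := by
        intro h0
        rw [h0, v.ord_zero] at hv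
        exact lt_irrefl _ hv
      by_cases hi : i = 1
      · rw [hi, tw_one, div_self hy0]
        exact Ge.one
      · rw [tw_ne s X hi]
        by_cases hXi : X i = 0
        · left
          rw [hXi, zero_div]
        · right
          rw [v.ord_div hXi hy0]
          have := (H v (hneg v hv)).2.1 i
          omega
    · rw [eq_top_iff, ← hgen, IntermediateField.adjoin_le_iff]
      have hmem : ∀ i, i ≠ 1 → X i ∈ IntermediateField.adjoin Ω (Set.range (tw s X)) := by
        intro i hi
        have h1 := IntermediateField.subset_adjoin Ω (Set.range (tw s X)) ⟨i, rfl⟩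
        rwa [tw_ne s X hi] at h1
      rintro _ ⟨i, rfl⟩
      show X i ∈ IntermediateField.adjoin Ω (Set.range (tw s X))
      by_cases hi : i = 1
      · rw [hi]
        have h1 := IntermediateField.subset_adjoin Ω (Set.range (tw s X)) ⟨1, rfl⟩
        rw [tw_one] at h1
        have h2 : yy s X = X 1 + ∑ k : Fin n, (s : E) ^ ((k.succ : Fin (n + 1)) : ℕ) *
            X k.succ.succ := by
          rw [yy, Fin.sum_univ_succ]
          congr 1
          rw [Fin.val_zero, pow_zero, one_mul]
          rfl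
        have h3 : X 1 = yy s X - ∑ k : Fin n, (s : E) ^ ((k.succ : Fin (n + 1)) : ℕ) *
            X k.succ.succ := by
          rw [h2, add_sub_cancel_right]
        rw [h3]
        refine sub_mem h1 (sum_mem fun k _ => mul_mem (pow_mem (_root_.natCast_mem _ s) _)
          (hmem _ fun h => ?_))
        have := congrArg Fin.val h
        simp at this
      · exact hmem i hi
  · intro hg
    have htr : Transcendental Ω (yy s X) := by
      obtain ⟨v, i, hi⟩ := exists_pole (Ω := Ω) X hgen
      exact v.transcendental_of_ord_ne (H v ⟨i, hi⟩).1.ne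
    rw [tw_one]
    have h1 : polar (k := Ω) (yy s X) = polar (k := Ω) (X 1) := by
      ext v
      rw [polar_apply, polar_apply]
      by_cases hv : v.ord (X 1) < 0
      · obtain ⟨h2, h3, j, h4⟩ := H v ⟨1, hv⟩
        have hX1 : X 1 ≠ 0 := by
          intro h0
          rw [h0, v.ord_zero] at hv
          exact lt_irrefl _ hv
        have hXj : X j ≠ 0 := by
          intro h0
          rw [h4, h0, v.ord_zero] at h2
          exact lt_irrefl _ h2
        have h5 : v.ord (X 1) ≤ v.ord (X j) := by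
          rcases hg.inf v hv j with h6 | h6
          · exact absurd h6 (div_ne_zero hXj hX1)
          · rw [v.ord_div hXj hX1] at h6
            omega
        have h6 := h3 1
        have h7 : v.ord (yy s X) = v.ord (X 1) := by omega
        rw [h7]
      · have h2 : ¬ v.ord (yy s X) < 0 := by
          intro h3
          obtain ⟨i, hi⟩ := hneg v h3
          exact (nge.mpr hi) (hg.fin v (Or.inr (not_lt.mp hv)) i)
        rw [max_eq_right (by omega), max_eq_right (by omega)]
    have h2 := ddeg_polar (k := Ω) htr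
    have h3 := ddeg_polar (k := Ω) hg.tr
    rw [h1, h3] at h2
    exact_mod_cast h2.symm

end Pool.Agent.N717.HN
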